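import Pool.Agent.W544.FF.Defs

/-!
# Project FF (helper544): positivity
-/

set_option autoImplicit false

open Matrix Finset Module

namespace Pool.Agent.W688.FF.POS

open Pool.Agent.W544.PG Pool.Agent.W544.FF

variable {ι : Type} [Fintype ι] [DecidableEq ι] {k : ℕ}

theorem pull_mul (A B : Matrix ι ι ℝ) (s : (Fin k → ι) → ℝ) :
    pull (A * B) s = pull B (pull A s) := by
  funext J
  unfold pull
  have h1 : ∀ L : Fin k → ι, ∏ j, (A * B) (L j) (J j) =
      ∑ K : Fin k → ι, (∏ j, B (K j) (J j)) * ∏ j, A (L j) (K j) := by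
    intro L
    have h2 : ∀ j, (A * B) (L j) (J j) = ∑ m, B m (J j) * A (L j) m := by
      intro j
      rw [Matrix.mul_apply]
      exact Finset.sum_congr rfl fun m _ => mul_comm _ _
    simp only [h2]
    rw [Finset.prod_univ_sum]
    simp only [Fintype.piFinset_univ, Finset.prod_mul_distrib]
  simp only [h1, Finset.sum_mul, Finset.mul_sum]
  rw [Finset.sum_comm]
  refine Finset.sum_congr rfl fun K _ => Finset.sum_congr rfl fun L _ => ?_
  ring

theorem pull_adj (P : Matrix ι ι ℝ) (t u : (Fin k → ι) → ℝ) :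
    ∑ J, t J * pull P u J = ∑ K, pull Pᵀ t K * u K := by
  unfold pull
  simp only [Finset.mul_sum, Finset.sum_mul, Matrix.transpose_apply]
  rw [Finset.sum_comm]
  refine Finset.sum_congr rfl fun K _ => Finset.sum_congr rfl fun L _ => ?_
  ring

theorem pull_diag (δ : ι → ℝ) (t : (Fin k → ι) → ℝ) (J : Fin k → ι) :
    pull (Matrix.diagonal δ) t J = (∏ j, δ (J j)) * t J := by
  unfold pull
  rw [Finset.sum_eq_single J]
  · simp
  · intro K _ hK
    obtain ⟨j, hj⟩ : ∃ j, K j ≠ J j := by
      by_contra hcon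
      push Not at hcon
      exact hK (funext hcon)
    have h1 : Matrix.diagonal δ (K j) (J j) = 0 := Matrix.diagonal_apply_ne δ hj
    have h2 : ∏ i, Matrix.diagonal δ (K i) (J i) = 0 :=
      Finset.prod_eq_zero (i := j) (Finset.mem_univ j) h1
    exact mul_eq_zero_of_left h2 _
  · intro h
    exact absurd (Finset.mem_univ J) h

theorem pos_inv (hsvd : S_svd) {n r : ℕ} (c : Fin n → Fin r) (t : (Fin k → Fin n) → ℝ)
    (ht : InvO c t) (A : Matrix (Fin n) (Fin n) ℝ) (hA : BD c A) (hd : A.det ≠ 0) :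
    0 ≤ ∑ J, t J * pull A t J := by
  obtain ⟨O₁, O₂, δ, hB1, hB2, hO1, hO2, hδ, rfl⟩ := hsvd n r c A hA hd
  rw [pull_mul, pull_mul, ht O₁ hO1 hB1, pull_adj]
  have h2 : pull O₂ᵀ t = t := by
    apply ht
    · rw [Matrix.transpose_transpose]
      exact mul_eq_one_comm.1 hO2
    · intro a b hab
      rw [Matrix.transpose_apply]
      exact hB2 b a (fun h => hab h.symm)
  rw [h2]
  refine Finset.sum_nonneg fun J _ => ?_
  rw [pull_diag]
  have h3 : 0 ≤ ∏ j, δ (J j) := Finset.prod_nonneg fun j _ => hδ _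
  have h4 : t J * ((∏ j, δ (J j)) * t J) = (∏ j, δ (J j)) * (t J * t J) := by ring
  rw [h4]
  exact mul_nonneg h3 (mul_self_nonneg _)

theorem pos (hsvd : S_svd) : S_pos := by
  intro n r k c t ht A hA
  have hcont : Continuous fun ε : ℝ => ∑ J, t J * pull (A + Matrix.scalar (Fin n) ε) t J := by
    unfold pull
    refine continuous_finsetSum _ fun J _ => continuous_const.mul ?_
    refine continuous_finsetSum _ fun K _ => Continuous.mul ?_ continuous_const
    refine continuous_finsetProd _ fun j _ => ?_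
    simp only [Matrix.add_apply, Matrix.scalar_apply]
    refine continuous_const.add ?_
    by_cases h : K j = J j
    · rw [h]
      simp only [Matrix.diagonal_apply_eq]
      exact continuous_id
    · simp only [Matrix.diagonal_apply_ne _ h]
      exact continuous_const
  have hfin : {ε : ℝ | (A + Matrix.scalar (Fin n) ε).det = 0}.Finite := by
    have h1 : (Matrix.charpoly (-A)) ≠ 0 := (Matrix.charpoly_monic (-A)).ne_zero
    refine (Polynomial.finite_setOfPred_isRoot h1).subset ?_
    intro ε hε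
    show Polynomial.eval ε (Matrix.charpoly (-A)) = 0
    rw [Matrix.eval_charpoly, sub_neg_eq_add, add_comm]
    exact hε
  have hdense : Dense {ε : ℝ | (A + Matrix.scalar (Fin n) ε).det = 0}ᶜ :=
    Set.Countable.dense_compl ℝ hfin.countable
  have hclosed : IsClosed {ε : ℝ | 0 ≤ ∑ J, t J * pull (A + Matrix.scalar (Fin n) ε) t J} :=
    isClosed_le continuous_const hcont
  have hsub : {ε : ℝ | (A + Matrix.scalar (Fin n) ε).det = 0}ᶜ ⊆
      {ε : ℝ | 0 ≤ ∑ J, t J * pull (A + Matrix.scalar (Fin n) ε) t J} := by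
    intro ε hε
    refine pos_inv hsvd c t ht _ ?_ hε
    intro a b hab
    have hne : a ≠ b := fun h => hab (by rw [h])
    rw [Matrix.add_apply, hA a b hab, Matrix.scalar_apply, Matrix.diagonal_apply_ne _ hne, add_zero]
  have hall : (0 : ℝ) ∈ {ε : ℝ | 0 ≤ ∑ J, t J * pull (A + Matrix.scalar (Fin n) ε) t J} := by
    have := hclosed.closure_subset_iff.2 hsub
    exact this (hdense 0)
  have h0 : A + Matrix.scalar (Fin n) (0 : ℝ) = A := by
    rw [map_zero, add_zero]
  have hall' : 0 ≤ ∑ J, t J * pull (A + Matrix.scalar (Fin n) (0 : ℝ)) t J := hall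
  rwa [h0] at hall'

end Pool.Agent.W688.FF.POS
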